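import Pool.Agent.Helper79.PNT.WI2

/-!
# The prime number theorem, also in arithmetic progressions

Consequences of the Wiener-Ikehara theorem `wiener_ikehara`.

* `psi_ap`   : `∑_{k ≤ x, k ≡ a (q)} Λ k / x → 1 / φ(q)`
* `theta_ap` : `∑_{p ≤ x, p ≡ a (q)} log p / x → 1 / φ(q)`
* `pi_ap`    : `#{p ≤ x, p ≡ a (q)} log x / x → 1 / φ(q)`
* `psi_tendsto`, `theta_tendsto`, `pi_tendsto` : the prime number theorem
-/

set_option autoImplicit false

open Filter Topology

namespace Pool.Agent.Helper79.PNT

open ArithmeticFunction in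
theorem psi_ap {q : ℕ} [NeZero q] {a : ZMod q} (ha : IsUnit a) :
    Tendsto (fun x : ℝ => (∑ k ∈ Finset.Icc 1 ⌊x⌋₊, vonMangoldt.residueClass a k) / x) atTop
      (𝓝 (q.totient : ℝ)⁻¹) := by
  have hle : ∀ n, vonMangoldt.residueClass a n ≤ vonMangoldt n := fun n =>
    vonMangoldt.residueClass_le a n
  apply wiener_ikehara (M := Real.log 4 + 4) (G := vonMangoldt.LFunctionResidueClassAux a)
    (fun n => vonMangoldt.residueClass_nonneg a n)
  · intro n
    have h1 := Chebyshev.psi_le_const_mul_self (x := (n : ℝ)) (Nat.cast_nonneg n)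
    refine le_trans ?_ h1
    unfold Chebyshev.psi
    rw [Nat.floor_natCast]
    exact Finset.sum_le_sum fun k _ => hle k
  · have := Real.log_nonneg (x := 4) (by norm_num)
    linarith
  · positivity
  · exact vonMangoldt.continuousOn_LFunctionResidueClassAux a
  · intro s hs
    have := vonMangoldt.eqOn_LFunctionResidueClassAux ha (x := s) hs
    simpa using this

open ArithmeticFunction in
/-- the prime number theorem for `ψ` -/
theorem psi_tendsto : Tendsto (fun x : ℝ => Chebyshev.psi x / x) atTop (𝓝 1) := by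
  have h := psi_ap (q := 1) (a := 1) isUnit_one
  simp only [Nat.totient_one, Nat.cast_one, inv_one] at h
  refine h.congr fun x => ?_
  congr 1
  unfold Chebyshev.psi
  apply Finset.sum_congr rfl
  intro k _
  simp only [vonMangoldt.residueClass, Set.indicator_apply, Set.mem_ofPred_eq]
  rw [if_pos (Subsingleton.elim _ _)]

/-- the prime number theorem for `θ` -/
theorem theta_tendsto : Tendsto (fun x : ℝ => Chebyshev.theta x / x) atTop (𝓝 1) := by
  have h1 : Tendsto (fun x : ℝ => (Chebyshev.psi - Chebyshev.theta) x / x) atTop (𝓝 0) := by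
    have h2 := Chebyshev.isBigO_psi_sub_theta_sqrt
    have h3 : (fun x : ℝ => Real.sqrt x) =o[atTop] (fun x : ℝ => x) := by
      rw [Asymptotics.isLittleO_iff_tendsto' (by
        filter_upwards [eventually_gt_atTop 0] with x hx h
        exact absurd h hx.ne')]
      have h4 : Tendsto (fun x : ℝ => (Real.sqrt x)⁻¹) atTop (𝓝 0) :=
        tendsto_inv_atTop_zero.comp Real.tendsto_sqrt_atTop
      refine h4.congr' ?_
      filter_upwards [eventually_gt_atTop 0] with x hx
      have := Real.mul_self_sqrt hx.le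
      have h5 : 0 < Real.sqrt x := Real.sqrt_pos.mpr hx
      rw [eq_div_iff hx.ne']
      nth_rewrite 2 [← this]
      field_simp
    exact (h2.trans_isLittleO h3).tendsto_div_nhds_zero
  have h2 := psi_tendsto.sub h1
  rw [sub_zero] at h2
  refine h2.congr fun x => ?_
  simp only [Pi.sub_apply]
  ring

/-- From `∑_{p ≤ x, p ∈ P} log p ~ A x` to `#{p ≤ x, p ∈ P} ~ A x / log x`. -/
theorem count_of_theta (P : ℕ → Prop) [DecidablePred P] (hP : ∀ n, P n → n.Prime) {A : ℝ}
    (hA : 0 ≤ A)
    (h : Tendsto (fun x : ℝ => (∑ p ∈ (Finset.Icc 1 ⌊x⌋₊).filter P, Real.log p) / x) atTop (𝓝 A)) :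
    Tendsto (fun x : ℝ => (((Finset.Icc 1 ⌊x⌋₊).filter P).card : ℝ) * Real.log x / x) atTop
      (𝓝 A) := by
  -- lower bound
  have hlow : ∀ᶠ x : ℝ in atTop, (∑ p ∈ (Finset.Icc 1 ⌊x⌋₊).filter P, Real.log p) / x ≤
      (((Finset.Icc 1 ⌊x⌋₊).filter P).card : ℝ) * Real.log x / x := by
    filter_upwards [eventually_gt_atTop 1] with x hx
    apply div_le_div_of_nonneg_right _ (by linarith)
    rw [← nsmul_eq_mul]
    apply Finset.sum_le_card_nsmul
    intro p hp
    rw [Finset.mem_filter, Finset.mem_Icc] at hp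
    apply Real.log_le_log (by exact_mod_cast hp.1.1)
    exact (Nat.le_floor_iff (by linarith)).mp hp.1.2
  -- upper bound: `card ≤ x^(1-δ) + θ / ((1-δ) log x)`
  rw [tendsto_order]
  constructor
  · intro b hb
    filter_upwards [hlow, h.eventually_const_lt hb] with x h1 h2
    linarith
  · intro b hb
    -- choose δ
    obtain ⟨δ, hδ0, hδ1, hδ⟩ : ∃ δ : ℝ, 0 < δ ∧ δ < 1 ∧ A / (1 - δ) < b := by
      have h1 : Tendsto (fun δ : ℝ => A / (1 - δ)) (𝓝[>] 0) (𝓝 (A / (1 - 0))) := by
        apply Tendsto.div tendsto_const_nhds _ (by norm_num)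
        exact tendsto_const_nhds.sub (tendsto_nhdsWithin_of_tendsto_nhds tendsto_id)
      rw [sub_zero, div_one] at h1
      have h2 := h1.eventually_lt_const hb
      have h3 : ∀ᶠ δ : ℝ in 𝓝[>] 0, δ < 1 :=
        (eventually_lt_nhds zero_lt_one).filter_mono nhdsWithin_le_nhds
      obtain ⟨δ, h4, h5, h6⟩ := (h2.and (h3.and (self_mem_nhdsWithin))).exists
      exact ⟨δ, h6, h5, h4⟩
    have h1 : Tendsto (fun x : ℝ => x ^ (1 - δ) * Real.log x / x +
        ((∑ p ∈ (Finset.Icc 1 ⌊x⌋₊).filter P, Real.log p) / x) / (1 - δ)) atTop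
        (𝓝 (0 + A / (1 - δ))) := by
      apply Tendsto.add _ (h.div_const _)
      have h2 : Tendsto (fun x : ℝ => Real.log x / x ^ δ) atTop (𝓝 0) :=
        (isLittleO_log_rpow_atTop hδ0).tendsto_div_nhds_zero
      refine h2.congr' ?_
      filter_upwards [eventually_gt_atTop 0] with x hx
      rw [Real.rpow_sub hx, Real.rpow_one]
      have : x ^ δ ≠ 0 := (Real.rpow_pos_of_pos hx _).ne'
      field_simp
    rw [zero_add] at h1
    filter_upwards [h1.eventually_lt_const hδ, eventually_gt_atTop 1] with x h2 hx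
    refine lt_of_le_of_lt ?_ h2
    have hx0 : 0 < x := by linarith
    have hlog : 0 < Real.log x := Real.log_pos hx
    set S := (Finset.Icc 1 ⌊x⌋₊).filter P with hS
    have hcard : (S.card : ℝ) ≤ x ^ (1 - δ) + (∑ p ∈ S, Real.log p) / ((1 - δ) * Real.log x) := by
      have h3 : S.card = (S.filter fun p : ℕ => (p : ℝ) ≤ x ^ (1 - δ)).card +
          (S.filter fun p : ℕ => ¬ (p : ℝ) ≤ x ^ (1 - δ)).card :=
        (Finset.card_filter_add_card_filter_not _).symm
      have h4 : ((S.filter fun p : ℕ => (p : ℝ) ≤ x ^ (1 - δ)).card : ℝ) ≤ x ^ (1 - δ) := by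
        have h5 : (S.filter fun p : ℕ => (p : ℝ) ≤ x ^ (1 - δ)) ⊆ Finset.Icc 1 ⌊x ^ (1 - δ)⌋₊ := by
          intro p hp
          rw [Finset.mem_filter, hS, Finset.mem_filter, Finset.mem_Icc] at hp
          rw [Finset.mem_Icc]
          exact ⟨hp.1.1.1, Nat.le_floor hp.2⟩
        have h6 := Finset.card_le_card h5
        rw [Nat.card_Icc, Nat.add_sub_cancel] at h6
        exact (Nat.cast_le.mpr h6).trans (Nat.floor_le (Real.rpow_nonneg hx0.le _))
      have h5 : ((S.filter fun p : ℕ => ¬ (p : ℝ) ≤ x ^ (1 - δ)).card : ℝ) ≤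
          (∑ p ∈ S, Real.log p) / ((1 - δ) * Real.log x) := by
        rw [le_div_iff₀ (mul_pos (by linarith) hlog), ← nsmul_eq_mul]
        calc (S.filter fun p : ℕ => ¬ (p : ℝ) ≤ x ^ (1 - δ)).card • ((1 - δ) * Real.log x)
            ≤ ∑ p ∈ S.filter fun p : ℕ => ¬ (p : ℝ) ≤ x ^ (1 - δ), Real.log p := by
              apply Finset.card_nsmul_le_sum
              intro p hp
              rw [Finset.mem_filter, not_le] at hp
              rw [← Real.log_rpow hx0]
              exact Real.log_le_log (Real.rpow_pos_of_pos hx0 _) hp.2.le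
          _ ≤ ∑ p ∈ S, Real.log p := by
              apply Finset.sum_le_sum_of_subset_of_nonneg (Finset.filter_subset _ _)
              intro p hp _
              rw [hS, Finset.mem_filter, Finset.mem_Icc] at hp
              exact Real.log_nonneg (by exact_mod_cast hp.1.1)
      rw [h3]
      push_cast
      linarith
    calc (S.card : ℝ) * Real.log x / x
        ≤ (x ^ (1 - δ) + (∑ p ∈ S, Real.log p) / ((1 - δ) * Real.log x)) * Real.log x / x := by
          apply div_le_div_of_nonneg_right _ hx0.le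
          exact mul_le_mul_of_nonneg_right hcard hlog.le
      _ = x ^ (1 - δ) * Real.log x / x + (∑ p ∈ S, Real.log p) / x / (1 - δ) := by
          have h7 : (1 - δ) ≠ 0 := by linarith
          field_simp

/-- the prime number theorem -/
theorem pi_tendsto :
    Tendsto (fun x : ℝ => (Nat.primeCounting ⌊x⌋₊ : ℝ) * Real.log x / x) atTop (𝓝 1) := by
  have h := count_of_theta Nat.Prime (fun n hn => hn) zero_le_one (A := 1) (by
    refine theta_tendsto.congr fun x => ?_
    rfl)
  refine h.congr fun x => ?_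
  congr 3
  rw [Nat.primeCounting, Nat.primeCounting', Nat.count_eq_card_filter_range]
  congr 1
  ext p
  simp only [Finset.mem_filter, Finset.mem_Icc, Finset.mem_range]
  constructor
  · rintro ⟨⟨_, h2⟩, h3⟩
    exact ⟨by omega, h3⟩
  · rintro ⟨h2, h3⟩
    exact ⟨⟨h3.one_lt.le, by omega⟩, h3⟩

open ArithmeticFunction in
/-- the prime number theorem in arithmetic progressions, `θ` version -/
theorem theta_ap {q : ℕ} [NeZero q] {a : ZMod q} (ha : IsUnit a) :
    Tendsto (fun x : ℝ => (∑ p ∈ (Finset.Icc 1 ⌊x⌋₊).filter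
      (fun p : ℕ => p.Prime ∧ (p : ZMod q) = a), Real.log p) / x) atTop
      (𝓝 (q.totient : ℝ)⁻¹) := by
  have h1 := psi_tendsto.sub theta_tendsto
  rw [sub_self] at h1
  have h2 : Tendsto (fun x : ℝ => (∑ k ∈ Finset.Icc 1 ⌊x⌋₊, vonMangoldt.residueClass a k) / x -
      (∑ p ∈ (Finset.Icc 1 ⌊x⌋₊).filter
      (fun p : ℕ => p.Prime ∧ (p : ZMod q) = a), Real.log p) / x) atTop (𝓝 0) := by
    refine tendsto_of_tendsto_of_tendsto_of_le_of_le' tendsto_const_nhds h1 ?_ ?_
    · filter_upwards [eventually_gt_atTop 0] with x hx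
      rw [← sub_div]
      apply div_nonneg _ hx.le
      rw [Finset.sum_filter, ← Finset.sum_sub_distrib]
      apply Finset.sum_nonneg
      intro k _
      simp only [vonMangoldt.residueClass, Set.indicator_apply, Set.mem_ofPred_eq]
      by_cases hk : (k : ZMod q) = a
      · by_cases hp : k.Prime
        · rw [if_pos hk, if_pos ⟨hp, hk⟩, vonMangoldt_apply_prime hp, sub_self]
        · rw [if_pos hk, if_neg (fun h => hp h.1), sub_zero]
          exact vonMangoldt_nonneg
      · rw [if_neg hk, if_neg (fun h => hk h.2), sub_self]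
    · filter_upwards [eventually_gt_atTop 0] with x hx
      rw [← sub_div, ← sub_div]
      apply div_le_div_of_nonneg_right _ hx.le
      unfold Chebyshev.psi Chebyshev.theta
      rw [Finset.sum_filter, Finset.sum_filter, ← Finset.sum_sub_distrib, ← Finset.sum_sub_distrib]
      have e : Finset.Ioc 0 ⌊x⌋₊ = Finset.Icc 1 ⌊x⌋₊ := rfl
      rw [e]
      apply Finset.sum_le_sum
      intro k _
      simp only [vonMangoldt.residueClass, Set.indicator_apply, Set.mem_ofPred_eq]
      by_cases hk : (k : ZMod q) = a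
      · by_cases hp : k.Prime
        · rw [if_pos hk, if_pos ⟨hp, hk⟩, if_pos hp]
        · rw [if_pos hk, if_neg (fun h => hp h.1), if_neg hp]
      · rw [if_neg hk, if_neg (fun h => hk h.2), sub_self]
        by_cases hp : k.Prime
        · rw [if_pos hp, vonMangoldt_apply_prime hp, sub_self]
        · rw [if_neg hp, sub_zero]
          exact vonMangoldt_nonneg
  have h3 := (psi_ap ha).sub h2
  rw [sub_zero] at h3
  refine h3.congr fun x => ?_
  ring

/-- the prime number theorem in arithmetic progressions -/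
theorem pi_ap {q : ℕ} [NeZero q] {a : ZMod q} (ha : IsUnit a) :
    Tendsto (fun x : ℝ => (((Finset.Icc 1 ⌊x⌋₊).filter
      (fun p : ℕ => p.Prime ∧ (p : ZMod q) = a)).card : ℝ) * Real.log x / x) atTop
      (𝓝 (q.totient : ℝ)⁻¹) :=
  count_of_theta _ (fun n hn => hn.1) (by positivity) (theta_ap ha)

end Pool.Agent.Helper79.PNT
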