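import Mathlib

/-!
# The Fejer kernel and its Fourier transform
-/

set_option autoImplicit false

open MeasureTheory Filter Topology

namespace Pool.Agent.Helper79.PNT

/-- the triangle weight of half width `l` -/
noncomputable def tri (l t : ℝ) : ℝ := max 0 (1 - |t| / l)

/-- the Fejer kernel -/
noncomputable def fej (v : ℝ) : ℝ := if v = 0 then 1 else 2 * (1 - Real.cos v) / v ^ 2

theorem fej_nonneg (v : ℝ) : 0 ≤ fej v := by
  unfold fej
  split_ifs with h
  · norm_num
  · have := Real.cos_le_one v
    apply div_nonneg _ (by positivity)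
    linarith

theorem fej_le_one (v : ℝ) : fej v ≤ 1 := by
  unfold fej
  split_ifs with h
  · exact le_refl _
  · rw [div_le_one (by positivity)]
    have := Real.one_sub_sq_div_two_le_cos (x := v)
    linarith

theorem fej_le (v : ℝ) : fej v ≤ 8 * (1 + v ^ 2)⁻¹ := by
  rcases le_total (v ^ 2) 1 with h | h
  · refine (fej_le_one v).trans ?_
    rw [← div_eq_mul_inv, le_div_iff₀ (by positivity)]
    linarith
  · have hv : v ≠ 0 := by
      rintro rfl
      norm_num at h
    unfold fej
    rw [if_neg hv, ← div_eq_mul_inv, div_le_div_iff₀ (by positivity) (by positivity)]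
    have h1 := Real.neg_one_le_cos v
    nlinarith [h1, h]

theorem measurable_fej : Measurable fej := by
  unfold fej
  refine Measurable.ite (measurableSet_singleton 0) measurable_const ?_
  fun_prop

theorem integrable_fej : Integrable fej := by
  refine (integrable_inv_one_add_sq.const_mul 8).mono' measurable_fej.aestronglyMeasurable ?_
  filter_upwards with v
  rw [Real.norm_of_nonneg (fej_nonneg v)]
  exact fej_le v

theorem integral_fej_pos : 0 < ∫ v, fej v := by
  rw [integral_pos_iff_support_of_nonneg (fun v => fej_nonneg v) integrable_fej]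
  have h : Set.Ioo (0 : ℝ) 1 ⊆ Function.support fej := by
    intro v hv
    simp only [Function.mem_support]
    unfold fej
    rw [if_neg hv.1.ne']
    have h1 : Real.cos v < 1 := by
      have := Real.cos_lt_cos_of_nonneg_of_le_pi (x := 0) (y := v) le_rfl
        (by linarith [hv.2, Real.pi_gt_three]) hv.1
      simpa using this
    have h2 : 0 < v ^ 2 := by have := hv.1; positivity
    have : 0 < 2 * (1 - Real.cos v) / v ^ 2 := by
      apply div_pos _ h2
      linarith
    exact this.ne'
  refine lt_of_lt_of_le ?_ (measure_mono h)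
  simp

theorem continuous_tri (l : ℝ) : Continuous (tri l) := by
  unfold tri
  fun_prop

theorem tri_nonneg (l t : ℝ) : 0 ≤ tri l t := le_max_left _ _

theorem tri_le_one (l t : ℝ) (hl : 0 < l) : tri l t ≤ 1 := by
  unfold tri
  apply max_le (by norm_num)
  have : 0 ≤ |t| / l := by positivity
  linarith

theorem tri_eq_zero {l t : ℝ} (hl : 0 < l) (ht : l ≤ |t|) : tri l t = 0 := by
  unfold tri
  apply max_eq_left
  have : 1 ≤ |t| / l := by rwa [le_div_iff₀ hl, one_mul]
  linarith

theorem tri_eq {l t : ℝ} (hl : 0 < l) (ht : |t| ≤ l) : tri l t = 1 - |t| / l := by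
  unfold tri
  apply max_eq_right
  have : |t| / l ≤ 1 := by rwa [div_le_one hl]
  linarith

theorem tri_support {l : ℝ} (hl : 0 < l) : Function.support (tri l) ⊆ Set.Ioc (-l) l := by
  intro t ht
  by_contra hcon
  apply ht
  apply tri_eq_zero hl
  by_contra h2
  push Not at h2
  rw [abs_lt] at h2
  exact hcon ⟨h2.1, h2.2.le⟩

theorem hasCompactSupport_tri {l : ℝ} (hl : 0 < l) : HasCompactSupport (tri l) := by
  apply HasCompactSupport.of_support_subset_isCompact (isCompact_Icc (a := -l) (b := l))
  exact (tri_support hl).trans Set.Ioc_subset_Icc_self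

theorem integrable_tri {l : ℝ} (hl : 0 < l) : Integrable (tri l) :=
  (continuous_tri l).integrable_of_hasCompactSupport (hasCompactSupport_tri hl)

/-- half of the Fourier integral -/
theorem integral_half {l v : ℝ} (hl : 0 < l) (hv : v ≠ 0) :
    ∫ t in (0:ℝ)..l, (1 - t / l) * Real.cos (t * v) = (1 - Real.cos (l * v)) / (l * v ^ 2) := by
  have hd : ∀ t ∈ Set.uIcc (0:ℝ) l, HasDerivAt (fun t => (1 - t / l) * (Real.sin (t * v) / v) -
      Real.cos (t * v) / (l * v ^ 2)) ((1 - t / l) * Real.cos (t * v)) t := by
    intro t _
    have h1 : HasDerivAt (fun t : ℝ => 1 - t / l) (-(1 / l)) t := by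
      simpa using ((hasDerivAt_id t).div_const l).const_sub 1
    have h0 : HasDerivAt (fun t : ℝ => t * v) v t := by simpa using (hasDerivAt_id t).mul_const v
    have h2 : HasDerivAt (fun t : ℝ => Real.sin (t * v) / v) (Real.cos (t * v) * v / v) t :=
      h0.sin.div_const v
    have h3 : HasDerivAt (fun t : ℝ => Real.cos (t * v) / (l * v ^ 2))
        (-Real.sin (t * v) * v / (l * v ^ 2)) t := h0.cos.div_const _
    have h4 := (h1.fun_mul h2).fun_sub h3
    have hl' : l ≠ 0 := hl.ne'
    refine h4.congr_deriv ?_
    field_simp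
    ring
  rw [intervalIntegral.integral_eq_sub_of_hasDerivAt hd]
  · have : l ≠ 0 := hl.ne'
    field_simp
    simp
    ring
  · apply Continuous.intervalIntegrable
    fun_prop

theorem integral_tri_cos {l : ℝ} (hl : 0 < l) (v : ℝ) :
    ∫ t, tri l t * Real.cos (t * v) = l * fej (l * v) := by
  have h1 : ∫ t, tri l t * Real.cos (t * v) = ∫ t in (-l)..l, tri l t * Real.cos (t * v) := by
    symm
    apply intervalIntegral.integral_eq_integral_of_support_subset
    intro t ht
    apply tri_support hl
    intro h
    apply ht
    simp [h]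
  have h2 : ∀ a b : ℝ, IntervalIntegrable (fun t => tri l t * Real.cos (t * v)) volume a b := by
    intro a b
    apply Continuous.intervalIntegrable
    exact (continuous_tri l).mul (by fun_prop)
  rw [h1, ← intervalIntegral.integral_add_adjacent_intervals (h2 (-l) 0) (h2 0 l)]
  have h3 : ∫ t in (-l)..0, tri l t * Real.cos (t * v) = ∫ t in (0:ℝ)..l, tri l t * Real.cos (t * v) := by
    have := intervalIntegral.integral_comp_neg (a := 0) (b := l)
      (fun t => tri l t * Real.cos (t * v))
    simp only [neg_zero] at this
    rw [← this]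
    apply intervalIntegral.integral_congr
    intro t _
    simp only [tri, abs_neg]
    rw [neg_mul, Real.cos_neg]
  have h4 : ∫ t in (0:ℝ)..l, tri l t * Real.cos (t * v) =
      ∫ t in (0:ℝ)..l, (1 - t / l) * Real.cos (t * v) := by
    apply intervalIntegral.integral_congr
    intro t ht
    rw [Set.uIcc_of_le hl.le] at ht
    simp only
    rw [tri_eq hl (by rw [abs_of_nonneg ht.1]; exact ht.2), abs_of_nonneg ht.1]
  rw [h3, h4]
  by_cases hv : v = 0
  · subst hv
    simp only [mul_zero, Real.cos_zero, mul_one, fej, if_true]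
    have hd : ∀ t ∈ Set.uIcc (0:ℝ) l, HasDerivAt (fun t => t - t ^ 2 / (2 * l)) (1 - t / l) t := by
      intro t _
      have h5 : HasDerivAt (fun t : ℝ => t - t ^ 2 / (2 * l)) (1 - (2 * t) / (2 * l)) t := by
        have := (hasDerivAt_id' t).fun_sub ((hasDerivAt_pow 2 t).div_const (2 * l))
        simpa using this
      convert h5 using 1
      rw [mul_div_mul_left _ _ (by norm_num)]
    rw [intervalIntegral.integral_eq_sub_of_hasDerivAt hd]
    · field_simp
      ring
    · apply Continuous.intervalIntegrable
      fun_prop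
  · rw [integral_half hl hv]
    unfold fej
    rw [if_neg (mul_ne_zero hl.ne' hv)]
    have : l ≠ 0 := hl.ne'
    field_simp
    ring

theorem integral_tri_sin {l : ℝ} (v : ℝ) :
    ∫ t, tri l t * Real.sin (t * v) = 0 := by
  have h : ∫ t, tri l t * Real.sin (t * v) = -∫ t, tri l t * Real.sin (t * v) := by
    conv_lhs => rw [← integral_neg_eq_self]
    rw [← integral_neg]
    apply integral_congr_ae
    filter_upwards with t
    simp only [tri, abs_neg]
    rw [neg_mul, Real.sin_neg]
    ring
  linarith

/-- the Fourier transform of the triangle is the Fejer kernel -/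
theorem integral_tri_exp {l : ℝ} (hl : 0 < l) (v : ℝ) :
    ∫ t : ℝ, (tri l t : ℂ) * Complex.exp (Complex.I * (t * v)) = ((l * fej (l * v) : ℝ) : ℂ) := by
  have hc : Integrable (fun t => tri l t * Real.cos (t * v)) := by
    apply ((continuous_tri l).mul (by fun_prop)).integrable_of_hasCompactSupport
    exact (hasCompactSupport_tri hl).mul_right
  have hs : Integrable (fun t => tri l t * Real.sin (t * v)) := by
    apply ((continuous_tri l).mul (by fun_prop)).integrable_of_hasCompactSupport
    exact (hasCompactSupport_tri hl).mul_right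
  have h1 : ∀ t : ℝ, (tri l t : ℂ) * Complex.exp (Complex.I * (t * v)) =
      ((tri l t * Real.cos (t * v) : ℝ) : ℂ) + ((tri l t * Real.sin (t * v) : ℝ) : ℂ) * Complex.I := by
    intro t
    rw [mul_comm Complex.I, Complex.exp_mul_I]
    push_cast
    ring
  simp_rw [h1]
  rw [integral_add hc.ofReal (hs.ofReal.mul_const _), integral_mul_const]
  rw [integral_complex_ofReal, integral_complex_ofReal, integral_tri_cos hl, integral_tri_sin]
  simp

end Pool.Agent.Helper79.PNT
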