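import Pool.Agent.Helper79.PNT.Kernel

/-!
# The Tauberian step of the Wiener-Ikehara theorem
-/

set_option autoImplicit false

open MeasureTheory Filter Topology

namespace Pool.Agent.Helper79.PNT

theorem exists_T {η : ℝ} (hη : 0 < η) :
    ∃ T : ℝ, 0 < T ∧ ∫ w in (Set.Icc (-T) T)ᶜ, fej w ≤ η * ∫ w, fej w := by
  have h := (aecover_Icc (μ := (volume : Measure ℝ)) tendsto_neg_atTop_atBot
    tendsto_id).integral_tendsto_of_countably_generated integrable_fej
  have hI := integral_fej_pos
  have h2 : ∀ᶠ T : ℝ in atTop, (1 - η) * ∫ w, fej w < ∫ w in Set.Icc (-T) T, fej w := by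
    apply h.eventually_const_lt
    nlinarith
  obtain ⟨T, hT, hT0⟩ := (h2.and (eventually_gt_atTop 0)).exists
  refine ⟨T, hT0, ?_⟩
  have h3 := integral_add_compl (μ := (volume : Measure ℝ)) (s := Set.Icc (-T) T)
    measurableSet_Icc integrable_fej
  linarith

section

variable {H : ℝ → ℝ} {A B : ℝ}

/-- the error function -/
noncomputable def err (H : ℝ → ℝ) (A : ℝ) (u : ℝ) : ℝ := H u - if 0 < u then A else 0

theorem measurable_err (hmeas : Measurable H) : Measurable (err H A) := by
  unfold err
  exact hmeas.sub (Measurable.ite measurableSet_Ioi measurable_const measurable_const)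

theorem integrable_err_fej (hmeas : Measurable H) (hbd : ∀ u, |err H A u| ≤ B) (l y : ℝ) :
    Integrable (fun w => err H A (y - w / l) * fej w) := by
  have h1 : Measurable (fun w : ℝ => err H A (y - w / l)) :=
    (measurable_err hmeas).comp (by fun_prop)
  refine (integrable_fej.const_mul B).mono' (h1.mul measurable_fej).aestronglyMeasurable ?_
  filter_upwards with w
  rw [Real.norm_eq_abs, abs_mul, abs_of_nonneg (fej_nonneg w)]
  exact mul_le_mul_of_nonneg_right (hbd _) (fej_nonneg w)

theorem tauber (hA : 0 ≤ A) (hmeas : Measurable H) (hH0 : ∀ u, 0 ≤ H u)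
    (hbd : ∀ u, |err H A u| ≤ B)
    (hmono : ∀ u v, u ≤ v → H u * Real.exp u ≤ H v * Real.exp v)
    (hconv : ∀ l : ℝ, 0 < l → Tendsto (fun y => ∫ w, err H A (y - w / l) * fej w) atTop (𝓝 0)) :
    Tendsto H atTop (𝓝 A) := by
  have hB : 0 ≤ B := (abs_nonneg _).trans (hbd 0)
  have hI := integral_fej_pos
  set I := ∫ w, fej w with hIdef
  rw [Metric.tendsto_nhds]
  intro ε hε
  set η : ℝ := min (1/2) (ε / (A + 4 * (1 + B) + 1)) with hη
  have hη0 : 0 < η := by positivity
  have hη2 : η ≤ 1/2 := min_le_left _ _
  have hηε : η * (A + 4 * (1 + B)) < ε := by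
    have h1 : η ≤ ε / (A + 4 * (1 + B) + 1) := min_le_right _ _
    rw [le_div_iff₀ (by positivity)] at h1
    nlinarith
  obtain ⟨T, hT0, hT⟩ := exists_T hη0
  -- choose `l`
  obtain ⟨l, hl0, hl⟩ : ∃ l : ℝ, 0 < l ∧ Real.exp (2 * T / l) ≤ 1 + η := by
    have h1 : Tendsto (fun l : ℝ => Real.exp (2 * T / l)) atTop (𝓝 1) := by
      have h2 : Tendsto (fun l : ℝ => 2 * T / l) atTop (𝓝 0) := tendsto_const_nhds.div_atTop tendsto_id
      have h3 := (Real.continuous_exp.tendsto 0).comp h2
      rw [Real.exp_zero] at h3
      exact h3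
    have h4 : ∀ᶠ l : ℝ in atTop, Real.exp (2 * T / l) < 1 + η := by
      apply h1.eventually_lt_const
      linarith
    obtain ⟨l, h5, h6⟩ := (h4.and (eventually_gt_atTop 0)).exists
    exact ⟨l, h6, h5.le⟩
  set F : ℝ → ℝ := fun y => ∫ w, err H A (y - w / l) * fej w with hF
  set IT := ∫ w in Set.Icc (-T) T, fej w with hIT
  have hITI : (1 - η) * I ≤ IT ∧ IT ≤ I := by
    have h3 := integral_add_compl (μ := (volume : Measure ℝ)) (s := Set.Icc (-T) T)
      measurableSet_Icc integrable_fej
    have h4 : 0 ≤ ∫ w in (Set.Icc (-T) T)ᶜ, fej w :=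
      setIntegral_nonneg measurableSet_Icc.compl fun w _ => fej_nonneg w
    constructor <;> linarith
  have hIT0 : 0 < IT := by nlinarith [hITI.1]
  -- tail bound
  have htail : ∀ y, |∫ w in (Set.Icc (-T) T)ᶜ, err H A (y - w / l) * fej w| ≤ B * (η * I) := by
    intro y
    calc |∫ w in (Set.Icc (-T) T)ᶜ, err H A (y - w / l) * fej w|
        ≤ ∫ w in (Set.Icc (-T) T)ᶜ, |err H A (y - w / l) * fej w| := abs_integral_le_integral_abs
      _ ≤ ∫ w in (Set.Icc (-T) T)ᶜ, B * fej w := by
          apply setIntegral_mono_on
          · exact (integrable_err_fej hmeas hbd l y).abs.integrableOn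
          · exact (integrable_fej.const_mul B).integrableOn
          · exact measurableSet_Icc.compl
          · intro w _
            rw [abs_mul, abs_of_nonneg (fej_nonneg w)]
            exact mul_le_mul_of_nonneg_right (hbd _) (fej_nonneg w)
      _ ≤ B * (η * I) := by
          rw [integral_const_mul]
          exact mul_le_mul_of_nonneg_left hT hB
  have hsplit : ∀ y, F y = (∫ w in Set.Icc (-T) T, err H A (y - w / l) * fej w) +
      ∫ w in (Set.Icc (-T) T)ᶜ, err H A (y - w / l) * fej w := fun y =>
    (integral_add_compl measurableSet_Icc (integrable_err_fej hmeas hbd l y)).symm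
  have hTl : 0 < T / l := by positivity
  have hwl : ∀ w ∈ Set.Icc (-T) T, -(T / l) ≤ w / l ∧ w / l ≤ T / l := by
    intro w hw
    rw [← neg_div]
    exact ⟨div_le_div_of_nonneg_right hw.1 hl0.le, div_le_div_of_nonneg_right hw.2 hl0.le⟩
  -- lower bound for `F y`
  have hlow : ∀ y, T / l < y → (H (y - T / l) * Real.exp (-(2 * T / l)) - A) * IT ≤
      ∫ w in Set.Icc (-T) T, err H A (y - w / l) * fej w := by
    intro y hy
    rw [hIT, ← integral_const_mul]
    apply setIntegral_mono_on
    · exact (integrable_fej.const_mul _).integrableOn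
    · exact (integrable_err_fej hmeas hbd l y).integrableOn
    · exact measurableSet_Icc
    · intro w hw
      apply mul_le_mul_of_nonneg_right _ (fej_nonneg w)
      obtain ⟨h1, h2⟩ := hwl w hw
      unfold err
      rw [if_pos (by linarith)]
      have h3 := hmono (y - T / l) (y - w / l) (by linarith)
      have h4 : H (y - T / l) * Real.exp (-(2 * T / l)) ≤ H (y - w / l) := by
        have h5 : Real.exp (-(2 * T / l)) ≤ Real.exp (y - T / l) * Real.exp (-(y - w / l)) := by
          rw [← Real.exp_add]
          apply Real.exp_le_exp.mpr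
          have : 2 * T / l = T / l + T / l := by ring
          rw [this]
          linarith
        calc H (y - T / l) * Real.exp (-(2 * T / l))
            ≤ H (y - T / l) * (Real.exp (y - T / l) * Real.exp (-(y - w / l))) :=
              mul_le_mul_of_nonneg_left h5 (hH0 _)
          _ = (H (y - T / l) * Real.exp (y - T / l)) * Real.exp (-(y - w / l)) := by ring
          _ ≤ (H (y - w / l) * Real.exp (y - w / l)) * Real.exp (-(y - w / l)) :=
              mul_le_mul_of_nonneg_right h3 (Real.exp_pos _).le
          _ = H (y - w / l) := by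
              rw [mul_assoc, ← Real.exp_add]
              simp
      linarith
  have hupp : ∀ y, T / l < y → ∫ w in Set.Icc (-T) T, err H A (y - w / l) * fej w ≤
      (H (y + T / l) * Real.exp (2 * T / l) - A) * IT := by
    intro y hy
    rw [hIT, ← integral_const_mul]
    apply setIntegral_mono_on
    · exact (integrable_err_fej hmeas hbd l y).integrableOn
    · exact (integrable_fej.const_mul _).integrableOn
    · exact measurableSet_Icc
    · intro w hw
      apply mul_le_mul_of_nonneg_right _ (fej_nonneg w)
      obtain ⟨h1, h2⟩ := hwl w hw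
      unfold err
      rw [if_pos (by linarith)]
      have h3 := hmono (y - w / l) (y + T / l) (by linarith)
      have h4 : H (y - w / l) ≤ H (y + T / l) * Real.exp (2 * T / l) := by
        have h5 : Real.exp (y + T / l) * Real.exp (-(y - w / l)) ≤ Real.exp (2 * T / l) := by
          rw [← Real.exp_add]
          apply Real.exp_le_exp.mpr
          have : 2 * T / l = T / l + T / l := by ring
          rw [this]
          linarith
        calc H (y - w / l) = (H (y - w / l) * Real.exp (y - w / l)) * Real.exp (-(y - w / l)) := by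
              rw [mul_assoc, ← Real.exp_add]
              simp
          _ ≤ (H (y + T / l) * Real.exp (y + T / l)) * Real.exp (-(y - w / l)) :=
              mul_le_mul_of_nonneg_right h3 (Real.exp_pos _).le
          _ = H (y + T / l) * (Real.exp (y + T / l) * Real.exp (-(y - w / l))) := by ring
          _ ≤ H (y + T / l) * Real.exp (2 * T / l) := mul_le_mul_of_nonneg_left h5 (hH0 _)
      linarith
  have hFη : ∀ᶠ y in atTop, |F y| < η * I := by
    have h1 := (hconv l hl0).abs
    rw [abs_zero] at h1
    exact h1.eventually_lt_const (by positivity)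
  obtain ⟨Y, hY⟩ := (hFη.and (eventually_gt_atTop (T / l))).exists_forall_of_atTop
  filter_upwards [eventually_ge_atTop (Y + T / l)] with z hz
  have e1 : 0 < Real.exp (2 * T / l) := Real.exp_pos _
  have e2 : Real.exp (-(2 * T / l)) * Real.exp (2 * T / l) = 1 := by
    rw [← Real.exp_add]; simp
  rw [Real.dist_eq, abs_lt]
  constructor
  · -- lower bound for `H z`, `y = z - T / l`
    have hy := hY (z - T / l) (by linarith)
    have h1 := hupp (z - T / l) hy.2
    rw [sub_add_cancel] at h1
    have h2 := hsplit (z - T / l)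
    have h3 := htail (z - T / l)
    rw [abs_le] at h3
    have h4 := (abs_lt.mp hy.1).1
    have h5 : -((1 + B) * η * I) ≤ (H z * Real.exp (2 * T / l) - A) * IT := by nlinarith [h3.2]
    have h6 : A - 2 * (1 + B) * η ≤ H z * Real.exp (2 * T / l) := by
      by_contra hcon
      push Not at hcon
      have h7 : (H z * Real.exp (2 * T / l) - A) * IT < (-(2 * (1 + B) * η)) * IT := by
        apply mul_lt_mul_of_pos_right _ hIT0
        linarith
      have h8 : (-(2 * (1 + B) * η)) * IT ≤ -((1 + B) * η * I) := by
        have h9 : I ≤ 2 * IT := by nlinarith [hITI.1]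
        have h10 : 0 ≤ (1 + B) * η := by positivity
        nlinarith
      linarith
    have h7 : H z * Real.exp (2 * T / l) ≤ H z * (1 + η) := mul_le_mul_of_nonneg_left hl (hH0 z)
    have h8 : A - η * (A + 4 * (1 + B)) ≤ H z := by
      by_contra hcon
      push Not at hcon
      have h9 : H z * (1 + η) < (A - η * (A + 4 * (1 + B))) * (1 + η) :=
        mul_lt_mul_of_pos_right hcon (by linarith)
      have h10 : 0 ≤ η * η * (A + 4 * (1 + B)) := by positivity
      have h11 : 0 ≤ (1 + B) * η := by positivity
      nlinarith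
    linarith
  · have hy := hY (z + T / l) (by linarith)
    have h1 := hlow (z + T / l) hy.2
    rw [add_sub_cancel_right] at h1
    have h2 := hsplit (z + T / l)
    have h3 := htail (z + T / l)
    rw [abs_le] at h3
    have h4 := (abs_lt.mp hy.1).2
    have h5 : (H z * Real.exp (-(2 * T / l)) - A) * IT ≤ (1 + B) * η * I := by nlinarith [h3.1]
    have h6 : H z * Real.exp (-(2 * T / l)) ≤ A + 2 * (1 + B) * η := by
      by_contra hcon
      push Not at hcon
      have h7 : (2 * (1 + B) * η) * IT < (H z * Real.exp (-(2 * T / l)) - A) * IT := by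
        apply mul_lt_mul_of_pos_right _ hIT0
        linarith
      have h8 : (1 + B) * η * I ≤ (2 * (1 + B) * η) * IT := by
        have h9 : I ≤ 2 * IT := by nlinarith [hITI.1]
        have h10 : 0 ≤ (1 + B) * η := by positivity
        nlinarith
      linarith
    have h7 : H z ≤ (A + 2 * (1 + B) * η) * (1 + η) := by
      calc H z = H z * Real.exp (-(2 * T / l)) * Real.exp (2 * T / l) := by rw [mul_assoc, e2, mul_one]
        _ ≤ (A + 2 * (1 + B) * η) * Real.exp (2 * T / l) := mul_le_mul_of_nonneg_right h6 e1.le
        _ ≤ (A + 2 * (1 + B) * η) * (1 + η) := mul_le_mul_of_nonneg_left hl (by positivity)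
    have h8 : (A + 2 * (1 + B) * η) * (1 + η) ≤ A + η * (A + 4 * (1 + B)) := by
      have h10 : 0 ≤ (1 + B) * η := by positivity
      nlinarith
    linarith

end

end Pool.Agent.Helper79.PNT
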