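import Pool.Agent.Helper79.PNT.Tauber

/-!
# The Wiener-Ikehara theorem (with an a priori Chebyshev bound)
-/

set_option autoImplicit false

open MeasureTheory Filter Topology

namespace Pool.Agent.Helper79.PNT

/-- summatory function -/
noncomputable def summ (a : ℕ → ℝ) (x : ℝ) : ℝ := ∑ k ∈ Finset.Icc 1 ⌊x⌋₊, a k

/-- normalised summatory function in the exponential variable -/
noncomputable def Hf (a : ℕ → ℝ) (u : ℝ) : ℝ := summ a (Real.exp u) * Real.exp (-u)

section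

variable {a : ℕ → ℝ} {A M : ℝ} {G : ℂ → ℂ}

theorem monotone_summ (ha : ∀ n, 0 ≤ a n) : Monotone (summ a) := by
  intro x y hxy
  unfold summ
  apply Finset.sum_le_sum_of_subset_of_nonneg
  · exact Finset.Icc_subset_Icc_right (Nat.floor_mono hxy)
  · intro k _ _
    exact ha k

theorem summ_nonneg (ha : ∀ n, 0 ≤ a n) (x : ℝ) : 0 ≤ summ a x :=
  Finset.sum_nonneg fun k _ => ha k

theorem measurable_summ (ha : ∀ n, 0 ≤ a n) : Measurable (summ a) :=
  (monotone_summ ha).measurable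

theorem measurable_Hf (ha : ∀ n, 0 ≤ a n) : Measurable (Hf a) := by
  unfold Hf
  exact ((measurable_summ ha).comp Real.measurable_exp).mul (by fun_prop)

theorem Hf_nonneg (ha : ∀ n, 0 ≤ a n) (u : ℝ) : 0 ≤ Hf a u :=
  mul_nonneg (summ_nonneg ha _) (Real.exp_pos _).le

theorem Hf_mul_exp (u : ℝ) : Hf a u * Real.exp u = summ a (Real.exp u) := by
  unfold Hf
  rw [mul_assoc, ← Real.exp_add]
  simp

theorem Hf_mono (ha : ∀ n, 0 ≤ a n) (u v : ℝ) (huv : u ≤ v) :
    Hf a u * Real.exp u ≤ Hf a v * Real.exp v := by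
  rw [Hf_mul_exp, Hf_mul_exp]
  exact monotone_summ ha (Real.exp_le_exp.mpr huv)

theorem Hf_neg {u : ℝ} (hu : u < 0) : Hf a u = 0 := by
  unfold Hf summ
  have : ⌊Real.exp u⌋₊ = 0 := by
    rw [Nat.floor_eq_zero, ← Real.exp_zero]
    exact Real.exp_lt_exp.mpr hu
  rw [this]
  simp

theorem summ_le (hM : ∀ n : ℕ, ∑ k ∈ Finset.Icc 1 n, a k ≤ M * n) (hM0 : 0 ≤ M) {x : ℝ} (hx : 0 ≤ x) :
    summ a x ≤ M * x :=
  (hM ⌊x⌋₊).trans (mul_le_mul_of_nonneg_left (Nat.floor_le hx) hM0)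

theorem Hf_le (hM : ∀ n : ℕ, ∑ k ∈ Finset.Icc 1 n, a k ≤ M * n) (hM0 : 0 ≤ M) (u : ℝ) :
    Hf a u ≤ M := by
  unfold Hf
  have h1 := summ_le hM hM0 (Real.exp_pos u).le
  calc summ a (Real.exp u) * Real.exp (-u) ≤ (M * Real.exp u) * Real.exp (-u) :=
        mul_le_mul_of_nonneg_right h1 (Real.exp_pos _).le
    _ = M := by
        rw [mul_assoc, ← Real.exp_add]
        simp

theorem err_le (ha : ∀ n, 0 ≤ a n) (hM : ∀ n : ℕ, ∑ k ∈ Finset.Icc 1 n, a k ≤ M * n)
    (hM0 : 0 ≤ M) (hA : 0 ≤ A) (u : ℝ) : |err (Hf a) A u| ≤ M + A := by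
  unfold err
  have h1 := Hf_nonneg ha u
  have h2 := Hf_le hM hM0 u
  rw [abs_le]
  split_ifs <;> constructor <;> linarith

theorem exp_cpow (u : ℝ) (z : ℂ) : ((Real.exp u : ℝ) : ℂ) ^ z = Complex.exp (u * z) := by
  rw [Complex.cpow_def_of_ne_zero (by exact_mod_cast (Real.exp_pos u).ne'),
    ← Complex.ofReal_log (Real.exp_pos u).le, Real.log_exp]

theorem integrableOn_exp_neg {z : ℂ} (hz : 0 < z.re) :
    IntegrableOn (fun u : ℝ => Complex.exp (-z * u)) (Set.Ioi 0) :=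
  integrableOn_exp_mul_complex_Ioi (by simpa using hz) 0

theorem integrableOn_mul_exp {f : ℝ → ℝ} {B : ℝ} (hf : Measurable f) (hB : ∀ u, |f u| ≤ B)
    {z : ℂ} (hz : 0 < z.re) :
    IntegrableOn (fun u : ℝ => (f u : ℂ) * Complex.exp (-z * u)) (Set.Ioi 0) := by
  have h1 : IntegrableOn (fun u : ℝ => B * ‖Complex.exp (-z * u)‖) (Set.Ioi 0) :=
    (integrableOn_exp_neg hz).norm.const_mul B
  refine Integrable.mono' h1 ?_ ?_
  · apply Measurable.aestronglyMeasurable
    exact (Complex.measurable_ofReal.comp hf).mul (by fun_prop)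
  · filter_upwards with u
    rw [norm_mul, Complex.norm_real, Real.norm_eq_abs]
    exact mul_le_mul_of_nonneg_right (hB u) (norm_nonneg _)

theorem isBigO_sum (ha : ∀ n, 0 ≤ a n) (hM : ∀ n : ℕ, ∑ k ∈ Finset.Icc 1 n, a k ≤ M * n) :
    (fun n : ℕ => ∑ k ∈ Finset.Icc 1 n, a k) =O[atTop] fun n => (n : ℝ) ^ (1 : ℝ) := by
  apply Asymptotics.IsBigO.of_bound M
  filter_upwards with n
  rw [Real.norm_of_nonneg (Finset.sum_nonneg fun k _ => ha k), Real.rpow_one,
    Real.norm_of_nonneg (Nat.cast_nonneg n)]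
  exact hM n

/-- Laplace transform of `Hf` -/
theorem laplace_Hf (ha : ∀ n, 0 ≤ a n) (hM : ∀ n : ℕ, ∑ k ∈ Finset.Icc 1 n, a k ≤ M * n)
    {s : ℂ} (hs : 1 < s.re) :
    LSeries (fun n => (a n : ℂ)) s =
      s * ∫ u in Set.Ioi (0:ℝ), (Hf a u : ℂ) * Complex.exp (-(s - 1) * u) := by
  rw [LSeries_eq_mul_integral_of_nonneg a zero_le_one hs (isBigO_sum ha hM) ha]
  congr 1
  have himg : Real.exp '' Set.Ioi 0 = Set.Ioi 1 := by
    ext x
    simp only [Set.mem_image, Set.mem_Ioi]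
    constructor
    · rintro ⟨u, hu, rfl⟩
      exact Real.one_lt_exp_iff.mpr hu
    · intro hx
      refine ⟨Real.log x, Real.log_pos hx, Real.exp_log (by linarith)⟩
  rw [← himg, integral_image_eq_integral_abs_deriv_smul (f' := Real.exp) measurableSet_Ioi
    (fun x _ => (Real.hasDerivAt_exp x).hasDerivWithinAt) Real.exp_injective.injOn]
  apply setIntegral_congr_fun measurableSet_Ioi
  intro u _
  simp only
  rw [abs_of_pos (Real.exp_pos u), exp_cpow, Complex.real_smul]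
  unfold Hf summ
  push_cast
  have h1 : Complex.exp (u * -(s + 1)) * Complex.exp u = Complex.exp (-(u:ℂ)) * Complex.exp (-(s - 1) * u) := by
    rw [← Complex.exp_add, ← Complex.exp_add]
    congr 1
    ring
  calc Complex.exp ↑u * ((∑ k ∈ Finset.Icc 1 ⌊Real.exp u⌋₊, (a k : ℂ)) * Complex.exp (↑u * -(s + 1)))
      = (∑ k ∈ Finset.Icc 1 ⌊Real.exp u⌋₊, (a k : ℂ)) * (Complex.exp (↑u * -(s + 1)) * Complex.exp ↑u) := by ring
    _ = _ := by rw [h1]; ring

theorem laplace_const {s : ℂ} (hs : 1 < s.re) (A : ℝ) :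
    ∫ u in Set.Ioi (0:ℝ), (A : ℂ) * Complex.exp (-(s - 1) * u) = A / (s - 1) := by
  rw [integral_const_mul, integral_exp_mul_complex_Ioi (by simpa using hs)]
  have : s - 1 ≠ 0 := by
    intro h
    have := congrArg Complex.re h
    simp at this
    linarith
  simp only [Complex.ofReal_zero, mul_zero, Complex.exp_zero]
  field_simp

/-- The Laplace transform of the error -/
theorem laplace_err (ha : ∀ n, 0 ≤ a n) (hM : ∀ n : ℕ, ∑ k ∈ Finset.Icc 1 n, a k ≤ M * n)
    (hM0 : 0 ≤ M) (hA : 0 ≤ A)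
    (hG : ∀ s : ℂ, 1 < s.re → G s = LSeries (fun n => (a n : ℂ)) s - A / (s - 1))
    {s : ℂ} (hs : 1 < s.re) :
    ∫ u in Set.Ioi (0:ℝ), (err (Hf a) A u : ℂ) * Complex.exp (-(s - 1) * u) = (G s - A) / s := by
  have hs0 : s ≠ 0 := by
    rintro rfl
    simp at hs
    linarith
  have hs1 : s - 1 ≠ 0 := by
    intro h
    have := congrArg Complex.re h
    simp at this
    linarith
  have h1 : ∫ u in Set.Ioi (0:ℝ), (err (Hf a) A u : ℂ) * Complex.exp (-(s - 1) * u) =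
      ∫ u in Set.Ioi (0:ℝ), ((Hf a u : ℂ) * Complex.exp (-(s - 1) * u) -
        (A : ℂ) * Complex.exp (-(s - 1) * u)) := by
    apply setIntegral_congr_fun measurableSet_Ioi
    intro u hu
    simp only [err]
    rw [if_pos (Set.mem_Ioi.mp hu)]
    push_cast
    ring
  have hz : 0 < (s - 1).re := by simpa using hs
  rw [h1, integral_sub, laplace_const hs, hG s hs, laplace_Hf ha hM hs]
  · field_simp
    ring
  · apply integrableOn_mul_exp (measurable_Hf ha) (B := M) _ hz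
    intro u
    rw [abs_of_nonneg (Hf_nonneg ha u)]
    exact Hf_le hM hM0 u
  · exact (integrableOn_exp_neg hz).const_mul _

end

end Pool.Agent.Helper79.PNT
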