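import Pool.Agent.Helper79.PNT.WI

/-!
# The Wiener-Ikehara theorem: smoothed identity and conclusion
-/

set_option autoImplicit false

open MeasureTheory Filter Topology

namespace Pool.Agent.Helper79.PNT

section

variable {a : ℕ → ℝ} {A M : ℝ} {G : ℂ → ℂ}

theorem smooth_eps (ha : ∀ n, 0 ≤ a n) (hM : ∀ n : ℕ, ∑ k ∈ Finset.Icc 1 n, a k ≤ M * n)
    (hM0 : 0 ≤ M) (hA : 0 ≤ A)
    (hG : ∀ s : ℂ, 1 < s.re → G s = LSeries (fun n => (a n : ℂ)) s - A / (s - 1))
    {l : ℝ} (hl : 0 < l) {ε : ℝ} (hε : 0 < ε) (y : ℝ) :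
    ∫ t : ℝ, (tri l t : ℂ) * Complex.exp (Complex.I * (t * y)) *
        ((G (1 + ε + Complex.I * t) - A) / (1 + ε + Complex.I * t)) =
      ((∫ u in Set.Ioi (0:ℝ), err (Hf a) A u * Real.exp (-ε * u) * (l * fej (l * (y - u))) : ℝ) : ℂ) := by
  have hre : ∀ t : ℝ, 1 < (1 + ε + Complex.I * t : ℂ).re := by
    intro t
    simp
    exact hε
  have hB : ∀ u, |err (Hf a) A u| ≤ M + A := err_le ha hM hM0 hA
  set F : ℝ → ℝ → ℂ := fun t u => (tri l t : ℂ) * Complex.exp (Complex.I * (t * y)) *
    ((err (Hf a) A u : ℂ) * Complex.exp (-(ε + Complex.I * t) * u)) with hF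
  have h1 : ∀ t : ℝ, (tri l t : ℂ) * Complex.exp (Complex.I * (t * y)) *
        ((G (1 + ε + Complex.I * t) - A) / (1 + ε + Complex.I * t)) =
      ∫ u in Set.Ioi (0:ℝ), F t u := by
    intro t
    rw [← laplace_err ha hM hM0 hA hG (hre t), ← integral_const_mul]
    apply setIntegral_congr_fun measurableSet_Ioi
    intro u _
    simp only [hF]
    congr 3
    ring
  simp_rw [h1]
  rw [integral_integral_swap]
  · rw [← integral_complex_ofReal]
    apply integral_congr_ae
    filter_upwards with u
    have h2 : ∀ t : ℝ, F t u = ((err (Hf a) A u * Real.exp (-ε * u) : ℝ) : ℂ) *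
        ((tri l t : ℂ) * Complex.exp (Complex.I * (t * ((y - u : ℝ) : ℂ)))) := by
      intro t
      simp only [hF]
      push_cast
      have h3 : Complex.exp (Complex.I * (t * y)) * Complex.exp (-(ε + Complex.I * t) * u) =
          Complex.exp (-ε * u) * Complex.exp (Complex.I * (t * (y - u))) := by
        rw [← Complex.exp_add, ← Complex.exp_add]
        congr 1
        ring
      linear_combination (tri l t : ℂ) * (err (Hf a) A u : ℂ) * h3
    simp_rw [h2]
    rw [integral_const_mul, integral_tri_exp hl]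
    push_cast
    ring
  · -- integrability on the product
    have hg : IntegrableOn (fun u : ℝ => (M + A) * ‖Complex.exp (-(ε:ℂ) * u)‖) (Set.Ioi 0) :=
      (integrableOn_exp_neg (z := (ε : ℂ)) (by simpa using hε)).norm.const_mul _
    have hprod := (integrable_tri hl).mul_prod hg
    refine hprod.mono' ?_ ?_
    · apply Measurable.aestronglyMeasurable
      have m1 : Measurable (fun p : ℝ × ℝ => (tri l p.1 : ℂ)) :=
        Complex.measurable_ofReal.comp ((continuous_tri l).measurable.comp measurable_fst)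
      have m2 : Measurable (fun p : ℝ × ℝ => (err (Hf a) A p.2 : ℂ)) :=
        Complex.measurable_ofReal.comp ((measurable_err (measurable_Hf ha)).comp measurable_snd)
      have m3 : Measurable (fun p : ℝ × ℝ => Complex.exp (Complex.I * (p.1 * y))) := by fun_prop
      have m4 : Measurable (fun p : ℝ × ℝ => Complex.exp (-(ε + Complex.I * p.1) * p.2)) := by
        fun_prop
      exact (m1.mul m3).mul (m2.mul m4)
    · filter_upwards with p
      simp only [Function.uncurry, hF]
      rw [norm_mul, norm_mul, norm_mul, Complex.norm_real, Complex.norm_real,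
        Real.norm_of_nonneg (tri_nonneg _ _), Real.norm_eq_abs]
      have e1 : ‖Complex.exp (Complex.I * (p.1 * y))‖ = 1 := by
        rw [show Complex.I * ((p.1 : ℂ) * y) = ((p.1 * y : ℝ) : ℂ) * Complex.I by push_cast; ring]
        exact Complex.norm_exp_ofReal_mul_I _
      have e2 : ‖Complex.exp (-(ε + Complex.I * p.1) * p.2)‖ = ‖Complex.exp (-(ε:ℂ) * p.2)‖ := by
        rw [Complex.norm_exp, Complex.norm_exp]
        congr 1
        simp
      rw [e1, e2, mul_one]
      apply mul_le_mul_of_nonneg_left _ (tri_nonneg _ _)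
      exact mul_le_mul_of_nonneg_right (hB _) (norm_nonneg _)

theorem integrable_fej_comp {l : ℝ} (hl : 0 < l) (y : ℝ) :
    Integrable (fun u => l * fej (l * (y - u))) := by
  have h1 : Integrable (fun v => fej (l * v)) := integrable_fej.comp_mul_left' hl.ne'
  have h2 := h1.comp_sub_left y
  exact h2.const_mul l

theorem smooth_zero (ha : ∀ n, 0 ≤ a n) (hM : ∀ n : ℕ, ∑ k ∈ Finset.Icc 1 n, a k ≤ M * n)
    (hM0 : 0 ≤ M) (hA : 0 ≤ A) (hGc : ContinuousOn G {s | 1 ≤ s.re})
    (hG : ∀ s : ℂ, 1 < s.re → G s = LSeries (fun n => (a n : ℂ)) s - A / (s - 1))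
    {l : ℝ} (hl : 0 < l) (y : ℝ) :
    ∫ t : ℝ, (tri l t : ℂ) * Complex.exp (Complex.I * (t * y)) *
        ((G (1 + Complex.I * t) - A) / (1 + Complex.I * t)) =
      ((∫ u in Set.Ioi (0:ℝ), err (Hf a) A u * (l * fej (l * (y - u))) : ℝ) : ℂ) := by
  have hB : ∀ u, |err (Hf a) A u| ≤ M + A := err_le ha hM hM0 hA
  set Φ : ℂ → ℂ := fun s => (G s - A) / s with hΦ
  have hΦc : ContinuousOn Φ {s | 1 ≤ s.re} := by
    apply (hGc.sub continuousOn_const).div continuousOn_id
    intro s hs
    rintro rfl
    have : (1:ℝ) ≤ (0:ℂ).re := hs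
    norm_num at this
  -- the sequence
  set e : ℕ → ℝ := fun n => 1 / ((n : ℝ) + 1) with he
  have he0 : ∀ n, 0 < e n := fun n => by simp only [he]; positivity
  have he1 : ∀ n, e n ≤ 1 := fun n => by
    simp only [he]
    rw [div_le_one (by positivity)]
    have : (0:ℝ) ≤ n := Nat.cast_nonneg n
    linarith
  have hlim : Tendsto e atTop (𝓝 0) := tendsto_one_div_add_atTop_nhds_zero_nat
  -- compact set
  set g : ℝ × ℝ → ℂ := fun p => Φ (1 + p.1 + Complex.I * p.2) with hg
  have hgc : ContinuousOn g (Set.Icc (0:ℝ) 1 ×ˢ Set.Icc (-l) l) := by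
    apply hΦc.comp
    · apply Continuous.continuousOn
      fun_prop
    · intro p hp
      simp
      exact hp.1.1
  obtain ⟨C, hC⟩ := (isCompact_Icc.prod isCompact_Icc).exists_bound_of_continuousOn hgc
  have hL : Tendsto (fun n => ∫ t : ℝ, (tri l t : ℂ) * Complex.exp (Complex.I * (t * y)) *
        Φ (1 + e n + Complex.I * t)) atTop (𝓝 (∫ t : ℝ, (tri l t : ℂ) *
          Complex.exp (Complex.I * (t * y)) * Φ (1 + Complex.I * t))) := by
    apply tendsto_integral_of_dominated_convergence (fun t => |C| * tri l t)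
    · intro n
      apply Continuous.aestronglyMeasurable
      apply Continuous.mul
      · apply Continuous.mul
        · exact Complex.continuous_ofReal.comp (continuous_tri l)
        · fun_prop
      · apply hΦc.comp_continuous (by fun_prop)
        intro t
        simp
        exact (he0 n).le
    · exact (integrable_tri hl).const_mul _
    · intro n
      filter_upwards with t
      by_cases ht : |t| ≤ l
      · rw [norm_mul, norm_mul, Complex.norm_real, Real.norm_of_nonneg (tri_nonneg _ _)]
        have e1 : ‖Complex.exp (Complex.I * (t * y))‖ = 1 := by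
          rw [show Complex.I * ((t : ℂ) * y) = ((t * y : ℝ) : ℂ) * Complex.I by push_cast; ring]
          exact Complex.norm_exp_ofReal_mul_I _
        rw [e1, mul_one, mul_comm]
        apply mul_le_mul_of_nonneg_right _ (tri_nonneg _ _)
        have := hC (e n, t) ⟨⟨(he0 n).le, he1 n⟩, abs_le.mp ht⟩
        exact this.trans (le_abs_self C)
      · rw [tri_eq_zero hl (by linarith [not_le.mp ht])]
        simp
    · filter_upwards with t
      apply Tendsto.mul tendsto_const_nhds
      have h1 : ContinuousWithinAt Φ {s | 1 ≤ s.re} (1 + Complex.I * t) := by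
        apply hΦc
        simp
      have h2 : Tendsto (fun n => (1 + e n + Complex.I * t : ℂ)) atTop
          (𝓝[{s | 1 ≤ s.re}] (1 + Complex.I * t)) := by
        apply tendsto_nhdsWithin_iff.mpr
        constructor
        · have h3 : Tendsto (fun n => ((e n : ℝ) : ℂ)) atTop (𝓝 ((0:ℝ):ℂ)) :=
            (Complex.continuous_ofReal.tendsto 0).comp hlim
          have h4 := (h3.const_add 1).add_const (Complex.I * t)
          simpa using h4
        · filter_upwards with n
          simp
          exact (he0 n).le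
      exact h1.tendsto.comp h2
  have hR : Tendsto (fun n => ((∫ u in Set.Ioi (0:ℝ), err (Hf a) A u * Real.exp (-(e n) * u) *
        (l * fej (l * (y - u))) : ℝ) : ℂ)) atTop
      (𝓝 ((∫ u in Set.Ioi (0:ℝ), err (Hf a) A u * (l * fej (l * (y - u))) : ℝ) : ℂ)) := by
    apply (Complex.continuous_ofReal.tendsto _).comp
    apply tendsto_integral_of_dominated_convergence (fun u => (M + A) * (l * fej (l * (y - u))))
    · intro n
      apply Measurable.aestronglyMeasurable
      apply Measurable.mul
      · exact (measurable_err (measurable_Hf ha)).mul (by fun_prop)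
      · exact (measurable_fej.comp (by fun_prop)).const_mul l
    · exact ((integrable_fej_comp hl y).const_mul _).integrableOn
    · intro n
      filter_upwards [ae_restrict_mem measurableSet_Ioi] with u hu
      have hk : 0 ≤ l * fej (l * (y - u)) := mul_nonneg hl.le (fej_nonneg _)
      rw [Real.norm_eq_abs, abs_mul, abs_mul, abs_of_nonneg hk, abs_of_pos (Real.exp_pos _)]
      apply mul_le_mul_of_nonneg_right _ hk
      have h1 : Real.exp (-(e n) * u) ≤ 1 := by
        rw [Real.exp_le_one_iff]
        have : 0 < u := hu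
        nlinarith [he0 n]
      calc |err (Hf a) A u| * Real.exp (-(e n) * u) ≤ |err (Hf a) A u| * 1 :=
            mul_le_mul_of_nonneg_left h1 (abs_nonneg _)
        _ ≤ M + A := by rw [mul_one]; exact hB u
    · filter_upwards with u
      apply Tendsto.mul _ tendsto_const_nhds
      have h1 : Tendsto (fun n => Real.exp (-(e n) * u)) atTop (𝓝 (Real.exp (-0 * u))) :=
        (Real.continuous_exp.tendsto _).comp ((hlim.neg).mul_const u)
      have h2 := h1.const_mul (err (Hf a) A u)
      simpa using h2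
  have hEq : ∀ n, ∫ t : ℝ, (tri l t : ℂ) * Complex.exp (Complex.I * (t * y)) *
        Φ (1 + e n + Complex.I * t) = ((∫ u in Set.Ioi (0:ℝ), err (Hf a) A u *
          Real.exp (-(e n) * u) * (l * fej (l * (y - u))) : ℝ) : ℂ) := fun n =>
    smooth_eps ha hM hM0 hA hG hl (he0 n) y
  simp_rw [hEq] at hL
  exact tendsto_nhds_unique hL hR

theorem change_var (ha : ∀ n, 0 ≤ a n) {l : ℝ} (hl : 0 < l) (y : ℝ) :
    ∫ u in Set.Ioi (0:ℝ), err (Hf a) A u * (l * fej (l * (y - u))) =
      ∫ w, err (Hf a) A (y - w / l) * fej w := by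
  rw [← integral_Ici_eq_integral_Ioi, setIntegral_eq_integral_of_forall_compl_eq_zero]
  · rw [← integral_sub_left_eq_self _ volume y]
    have h1 := Measure.integral_comp_mul_left (fun w => err (Hf a) A (y - w / l) * fej w) l
    rw [abs_of_pos (inv_pos.mpr hl), smul_eq_mul] at h1
    have h2 : ∫ w, err (Hf a) A (y - w / l) * fej w =
        l * ∫ x, err (Hf a) A (y - l * x / l) * fej (l * x) := by
      rw [h1, ← mul_assoc, mul_inv_cancel₀ hl.ne', one_mul]
    rw [h2, ← integral_const_mul]
    apply integral_congr_ae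
    filter_upwards with x
    rw [mul_div_cancel_left₀ _ hl.ne', sub_sub_cancel]
    ring
  · intro u hu
    have : u < 0 := by simpa using hu
    unfold err
    rw [Hf_neg this, if_neg (by linarith)]
    simp

theorem conv_tendsto (ha : ∀ n, 0 ≤ a n) (hM : ∀ n : ℕ, ∑ k ∈ Finset.Icc 1 n, a k ≤ M * n)
    (hM0 : 0 ≤ M) (hA : 0 ≤ A) (hGc : ContinuousOn G {s | 1 ≤ s.re})
    (hG : ∀ s : ℂ, 1 < s.re → G s = LSeries (fun n => (a n : ℂ)) s - A / (s - 1))
    {l : ℝ} (hl : 0 < l) :
    Tendsto (fun y => ∫ w, err (Hf a) A (y - w / l) * fej w) atTop (𝓝 0) := by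
  set f : ℝ → ℂ := fun t => (tri l t : ℂ) * ((G (1 + Complex.I * t) - A) / (1 + Complex.I * t)) with hf
  have h1 := Real.tendsto_integral_exp_smul_cocompact f
  have h2 : Tendsto (fun y : ℝ => -y / (2 * Real.pi)) atTop (cocompact ℝ) := by
    apply Tendsto.mono_right _ atBot_le_cocompact
    have h3 : Tendsto (fun y : ℝ => y / (2 * Real.pi)) atTop atTop :=
      tendsto_id.atTop_div_const (by positivity)
    have h4 := tendsto_neg_atTop_atBot.comp h3
    refine h4.congr fun y => ?_
    simp only [Function.comp]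
    ring
  have h3 := h1.comp h2
  have h4 : ∀ y : ℝ, ((fun w : ℝ => ∫ v : ℝ, Real.fourierChar (-(v * w)) • f v) ∘
      fun y : ℝ => -y / (2 * Real.pi)) y =
      ((∫ w, err (Hf a) A (y - w / l) * fej w : ℝ) : ℂ) := by
    intro y
    rw [← change_var ha hl, ← smooth_zero ha hM hM0 hA hGc hG hl]
    simp only [Function.comp]
    apply integral_congr_ae
    filter_upwards with t
    rw [Circle.smul_def, Real.fourierChar_apply, smul_eq_mul]
    have h5 : ((2 * Real.pi * -(t * (-y / (2 * Real.pi))) : ℝ) : ℂ) * Complex.I =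
        Complex.I * (t * y) := by
      have h6 : 2 * Real.pi * -(t * (-y / (2 * Real.pi))) = t * y := by
        have := Real.pi_pos
        field_simp
      rw [h6]
      push_cast
      ring
    rw [h5]
    simp only [hf]
    ring
  have h5 : Tendsto (fun y => ((∫ w, err (Hf a) A (y - w / l) * fej w : ℝ) : ℂ)) atTop (𝓝 0) :=
    h3.congr h4
  have h6 := (Complex.continuous_re.tendsto 0).comp h5
  simpa [Function.comp_def] using h6

/-- **Wiener-Ikehara theorem** for nonnegative coefficients with an a priori bound -/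
theorem wiener_ikehara (ha : ∀ n, 0 ≤ a n) (hM : ∀ n : ℕ, ∑ k ∈ Finset.Icc 1 n, a k ≤ M * n)
    (hM0 : 0 ≤ M) (hA : 0 ≤ A) (hGc : ContinuousOn G {s | 1 ≤ s.re})
    (hG : ∀ s : ℂ, 1 < s.re → G s = LSeries (fun n => (a n : ℂ)) s - A / (s - 1)) :
    Tendsto (fun x : ℝ => (∑ k ∈ Finset.Icc 1 ⌊x⌋₊, a k) / x) atTop (𝓝 A) := by
  have h1 := tauber hA (measurable_Hf ha) (Hf_nonneg ha) (err_le ha hM hM0 hA) (Hf_mono ha)
    (fun l hl => conv_tendsto ha hM hM0 hA hGc hG hl)
  have h2 := h1.comp Real.tendsto_log_atTop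
  refine h2.congr' ?_
  filter_upwards [eventually_gt_atTop 0] with x hx
  simp only [Function.comp, Hf, summ]
  rw [Real.exp_log hx, Real.exp_neg, Real.exp_log hx, div_eq_mul_inv]

end

end Pool.Agent.Helper79.PNT
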